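import Pool.Agent.K7.H61.FG.Par
import Pool.Agent.H256R2.SC.V1
import Pool.Agent.H256R2.SC.J

set_option autoImplicit false
set_option maxHeartbeats 4000000

/-! # The covering theorem for integers with a large set of primes left out (helper61)

`Pool.Agent.H256R2.SC.core` (helper256's team) with the parameters of `paramsE`: the primes are larger than
`(log X) ^ A` and avoid an arbitrary set of at most `(log X) ^ A / 2` primes. -/

namespace Pool.Agent.K7.H61.FG

open Finset Filter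
open Pool.Agent.H256R2.SC
open Pool.Agent.H312R2.RG (pP gP)

open scoped Classical

/-- counting an arithmetic progression -/
theorem count_ap (a b : ℤ) (hab : a ≤ b) (q : ℕ) (hq : 0 < q) (r : ℤ) :
    |((((Ioc a b).filter (fun x => (q : ℤ) ∣ x - r)).card : ℕ) : ℝ) - ((b : ℝ) - a) / q| ≤ 1 := by
  have hq' : (0 : ℤ) < (q : ℤ) := by exact_mod_cast hq
  have h1 := Int.Ioc_filter_modEq_card a b hq' r
  have h2 : (Ioc a b).filter (fun x => (q : ℤ) ∣ x - r) =
      (Ioc a b).filter (fun x => x ≡ r [ZMOD q]) := by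
    refine filter_congr fun x _ => ?_
    rw [Int.modEq_comm, Int.modEq_iff_dvd]
  rw [h2]
  have hqQ : (0 : ℚ) < q := by exact_mod_cast hq
  have hmono : ⌊((a : ℚ) - r) / ((q : ℤ) : ℚ)⌋ ≤ ⌊((b : ℚ) - r) / ((q : ℤ) : ℚ)⌋ := by
    apply Int.floor_le_floor
    have : (a : ℚ) ≤ b := by exact_mod_cast hab
    push_cast
    gcongr
  rw [max_eq_left (by linarith)] at h1
  have h3 : ((((Ioc a b).filter (fun x => x ≡ r [ZMOD q])).card : ℕ) : ℚ) =
      ((⌊((b : ℚ) - r) / ((q : ℤ) : ℚ)⌋ - ⌊((a : ℚ) - r) / ((q : ℤ) : ℚ)⌋ : ℤ) : ℚ) := by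
    rw [← h1]
    simp
  have h4 : |((((Ioc a b).filter (fun x => x ≡ r [ZMOD q])).card : ℕ) : ℚ) -
      ((b : ℚ) - a) / q| ≤ 1 := by
    rw [h3]
    have e1 := Int.floor_le (((b : ℚ) - r) / ((q : ℤ) : ℚ))
    have e2 := Int.lt_floor_add_one (((b : ℚ) - r) / ((q : ℤ) : ℚ))
    have e3 := Int.floor_le (((a : ℚ) - r) / ((q : ℤ) : ℚ))
    have e4 := Int.lt_floor_add_one (((a : ℚ) - r) / ((q : ℤ) : ℚ))
    have e5 : ((b : ℚ) - a) / q = ((b : ℚ) - r) / ((q : ℤ) : ℚ) - ((a : ℚ) - r) / ((q : ℤ) : ℚ) := by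
      push_cast
      ring
    rw [e5, abs_le]
    push_cast
    push_cast at e1 e2 e3 e4
    constructor <;> linarith
  have h5 : ((|((((Ioc a b).filter (fun x => x ≡ r [ZMOD q])).card : ℕ) : ℚ) -
      ((b : ℚ) - a) / q| : ℚ) : ℝ) ≤ ((1 : ℚ) : ℝ) := by exact_mod_cast h4
  push_cast at h5
  exact h5

theorem ev_cov (A : ℕ) : ∀ᶠ X : ℝ in atTop, 1000 ≤ Real.log X ∧ Real.log X ≤ X ^ (1 / 1000 : ℝ) ∧
    200 ≤ X ^ (1 / 1000 : ℝ) ∧ 1000 ≤ X := by
  have h1 : ∀ᶠ X : ℝ in atTop, Real.log X ≤ X ^ (1 / 1000 : ℝ) := by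
    have h := (isLittleO_log_rpow_atTop (show (0 : ℝ) < 1 / 1000 by norm_num)).def one_pos
    filter_upwards [h, eventually_ge_atTop 1] with X hX hX1
    rw [Real.norm_eq_abs, Real.norm_eq_abs, abs_of_nonneg (Real.log_nonneg hX1),
      abs_of_nonneg (Real.rpow_nonneg (by linarith) _), one_mul] at hX
    exact hX
  filter_upwards [Real.tendsto_log_atTop.eventually_ge_atTop 1000, h1,
    (tendsto_rpow_atTop (show (0 : ℝ) < 1 / 1000 by norm_num)).eventually_ge_atTop 200,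
    eventually_ge_atTop 1000] with X g1 g2 g3 g4
  exact ⟨g1, g2, g3, g4⟩

/-- the covering theorem -/
theorem coverE (A : ℕ) (hA : 6 ≤ A) : ∃ c : ℝ, 0 < c ∧ ∀ᶠ X : ℝ in atTop, ∀ Bx : Finset ℕ,
    2 * (Bx.card : ℝ) ≤ (Real.log X) ^ A → ∀ (κ : Type) [Fintype κ] [DecidableEq κ],
    (Fintype.card κ : ℝ) ≤ c * Real.log X →
    ∃ PP : Finset ℕ, (∀ p ∈ PP, p.Prime ∧ (Real.log X) ^ A < p ∧ (p : ℝ) ≤ X ^ (1 / 1000 : ℝ) ∧ p ∉ Bx) ∧
      ∀ res : ℕ → κ → ℤ, (∀ p ∈ PP, ∀ k l, k ≠ l → ¬ ((p : ℤ) ∣ res p k - res p l)) →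
      ∀ a b : ℤ, X ^ (1 / 2 : ℝ) ≤ (b : ℝ) - a → ∃ x ∈ Ioc a b, ∀ k, ∃ p ∈ PP, (p : ℤ) ∣ x - res p k := by
  obtain ⟨c₃, hc₃, hpar⟩ := paramsE A 2 (by omega)
  refine ⟨min c₃ 1, lt_min hc₃ one_pos, ?_⟩
  filter_upwards [hpar, ev_cov A, Real.tendsto_log_atTop.eventually_ge_atTop (1 / c₃)] with X hX hev hc3L
  obtain ⟨hL1000, hLX, h200, hX1000⟩ := hev
  intro Bx hBx κ _ _ hκ
  set L := Real.log X with hL
  have hL0 : 0 < L := by linarith
  have hX0 : 0 < X := by linarith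
  set u : ℕ := max 1 (Fintype.card κ) with hu
  have hu1 : 1 ≤ u := le_max_left _ _
  have hκu : (Fintype.card κ : ℝ) ≤ u := by exact_mod_cast le_max_right _ _
  have huc : (u : ℝ) ≤ c₃ * L := by
    rw [hu]
    push_cast
    apply max_le
    · rw [div_le_iff₀ hc₃] at hc3L
      linarith
    · exact hκ.trans (mul_le_mul_of_nonneg_right (min_le_left _ _) hL0.le)
  have huL : (u : ℝ) ≤ L := by
    rw [hu]
    push_cast
    apply max_le (by linarith)
    have := hκ.trans (mul_le_mul_of_nonneg_right (min_le_right c₃ 1) hL0.le)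
    linarith
  obtain ⟨PP, h, z, Kc, δ, J, g1, g2, g3, g4, g5, g6, g7, g8, g9, g10, g11⟩ := hX Bx u hBx hu1 huc
  refine ⟨PP, fun p hp => ⟨(g1 p hp).1, (g1 p hp).2.1, (g1 p hp).2.2.1.trans g4, (g1 p hp).2.2.2⟩, ?_⟩
  intro res hres a b hab
  set Q : ℝ := X ^ (1 / 1000 : ℝ) with hQ
  have hQ1 : 1 ≤ Q := by linarith
  have hκ0 : (0 : ℝ) ≤ Fintype.card κ := Nat.cast_nonneg _
  have hp0 : ∀ i, L ^ A < pP PP i := fun i => (g1 _ (emb_mem PP i)).2.1
  have hLA : L ≤ L ^ A := le_self_pow₀ (by linarith) (by omega)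
  have hLApos : 0 < L ^ A := by positivity
  have hpz : ∀ i, pP PP i ≤ z := fun i => (g1 _ (emb_mem PP i)).2.2.1
  have hgA : ∀ i, gP PP i ≤ 1 / L ^ A := fun i =>
    one_div_le_one_div_of_le hLApos (hp0 i).le
  have hg0 : ∀ i, 0 < gP PP i := g2.g0
  have hgL : ∀ i, gP PP i ≤ 1 / L := fun i => (hgA i).trans (one_div_le_one_div_of_le hL0 hLA)
  have h1L : 1 / L ≤ 1 / 1000 := one_div_le_one_div_of_le (by norm_num) hL1000
  have hδ0 : 0 ≤ δ := by
    have h2 := g10 κ (fun _ => none) (by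
      have : qq (pP PP) (fun _ => none : Col PP.card κ) = 1 := by
        unfold qq nu1
        simp
      rw [this]
      exact hQ1)
    simpa using h2
  have hsumg : 0 ≤ ∑ i, gP PP i := sum_nonneg fun i _ => (hg0 i).le
  have hz1 := g2.z1
  have hlz : 0 < Real.log z := Real.log_pos hz1
  have hK0 := g2.K0
  -- the total error
  set E1 := Real.exp (2 * (u : ℝ) * Kc / Real.log z - Real.log (Q / z) / Real.log z) with hE1
  set E2 := (1 / 8 : ℝ) ^ J * Real.exp (50 * ∑ i, gP PP i) with hE2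
  have hE10 : 0 < E1 := Real.exp_pos _
  have hE20 : 0 < E2 := by positivity
  have hu0 : (1 : ℝ) ≤ u := by exact_mod_cast hu1
  have hsmall : 1 / L ^ 2 ≤ 1 / 8 := by
    apply one_div_le_one_div_of_le (by norm_num)
    nlinarith
  have htot : ((u : ℝ) + 1) * (δ ^ 2 + E1 + E2) ≤ 1 / 8 := g11.trans hsmall
  obtain ⟨x, hx, hxk⟩ := core (κ := κ) (Ioc a b) (colr PP res) g2 Q δ 8 ((b : ℝ) - a) 1 J g3 (by norm_num)
    (by
      have : 0 < X ^ (1 / 2 : ℝ) := by positivity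
      linarith) (by norm_num) hQ1 hpz
    (fun i => by
      have := hgL i
      linarith)
    (fun i => by
      have := hgL i
      linarith)
    (fun i => by
      have h2 : (Fintype.card κ : ℝ) * gP PP i ≤ L * (1 / L) :=
        mul_le_mul (hκu.trans huL) (hgL i) (hg0 i).le hL0.le
      have h3 : L * (1 / L) = 1 := by field_simp
      linarith)
    (fun D hD => g10 κ D hD)
    (by
      have h2 : (Fintype.card κ : ℝ) * δ ≤ L * (2 / L ^ (A - 1)) :=
        mul_le_mul (hκu.trans huL) g9 hδ0 hL0.le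
      have h3 : L * (2 / L ^ (A - 1)) ≤ 1 / 4 := by
        rw [mul_div_assoc', div_le_div_iff₀ (by positivity) (by norm_num)]
        have h4 : L ^ 2 ≤ L ^ (A - 1) := pow_le_pow_right₀ (by linarith) (by omega)
        nlinarith
      linarith)
    (by
      have h2 : ∑ i, 1 / (pP PP i) ^ 2 = ∑ i, (gP PP i) ^ 2 := by
        apply sum_congr rfl
        intro i _
        have : gP PP i = 1 / pP PP i := rfl
        rw [this, div_pow, one_pow]
      rw [h2]
      have h3 : 0 ≤ ∑ i, (gP PP i) ^ 2 := sum_nonneg fun i _ => sq_nonneg _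
      have h4 : 2 * (Fintype.card κ : ℝ) * ∑ i, (gP PP i) ^ 2 ≤ 4 * (u : ℝ) * ∑ i, (gP PP i) ^ 2 :=
        mul_le_mul_of_nonneg_right (by linarith) h3
      linarith)
    (by
      have h2 : Real.exp (2 * (Fintype.card κ : ℝ) * Kc / Real.log z - Real.log (Q / z) / Real.log z) ≤ E1 := by
        apply Real.exp_le_exp.2
        apply sub_le_sub_right
        apply div_le_div_of_nonneg_right _ hlz.le
        apply mul_le_mul_of_nonneg_right _ hK0
        linarith
      calc ((Fintype.card κ : ℝ) + 1) * (δ ^ 2 + Real.exp (2 * (Fintype.card κ : ℝ) * Kc / Real.log z -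
            Real.log (Q / z) / Real.log z)) ≤ ((u : ℝ) + 1) * (δ ^ 2 + E1 + E2) := by
            apply mul_le_mul (by linarith) (by linarith) (by positivity) (by linarith)
        _ ≤ 1 / 8 := htot)
    (by
      have h2 : (2 + 6 * 8 : ℝ) = 50 := by norm_num
      rw [h2]
      calc (Fintype.card κ : ℝ) * (1 / 8) ^ J * Real.exp (50 * ∑ i, gP PP i) = (Fintype.card κ : ℝ) * E2 := by
            rw [hE2]; ring
        _ ≤ ((u : ℝ) + 1) * (δ ^ 2 + E1 + E2) := by
            apply mul_le_mul (by linarith) _ hE20.le (by linarith)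
            have := sq_nonneg δ
            linarith
        _ ≤ 1 / 8 := htot)
    (by
      intro D _
      obtain ⟨r, hr⟩ := event_iff (fun p hp => (g1 p hp).1) hres D
      have h2 : ((Ioc a b).filter (fun x => ∀ i, D i ≠ none → colr PP res x i = D i)) =
          (Ioc a b).filter (fun x => ((qn PP D : ℕ) : ℤ) ∣ x - r) := by
        apply filter_congr
        intro x _
        exact hr x
      rw [h2]
      have h3 : nu (gP PP) D = 1 / ((qn PP D : ℕ) : ℝ) := nu_eq PP D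
      rw [h3, mul_one_div]
      apply count_ap
      · have : (0 : ℝ) < X ^ (1 / 2 : ℝ) := by positivity
        have h4 : (a : ℝ) ≤ b := by linarith
        exact_mod_cast h4
      · exact Nat.pos_of_ne_zero (qn_squarefree (fun p hp => (g1 p hp).1) D).ne_zero)
    (by
      have h2 : (Fintype.card κ : ℝ) ≤ Q := (hκu.trans huL).trans hLX
      have h3 : 1 + (Fintype.card κ : ℝ) * ((PP.card : ℝ) + 1) ^ J ≤ 2 * Q ^ 2 := by
        have h4 : (Fintype.card κ : ℝ) * ((PP.card : ℝ) + 1) ^ J ≤ Q * Q :=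
          mul_le_mul h2 g6 (by positivity) (by linarith)
        have h5 : 1 ≤ Q ^ 2 := one_le_pow₀ hQ1
        nlinarith
      have h4 : (1 : ℝ) * (9 * Q ^ 4 * (1 + (Fintype.card κ : ℝ) * ((PP.card : ℝ) + 1) ^ J)) ≤ 18 * Q ^ 6 := by
        have h5 : (0 : ℝ) ≤ 9 * Q ^ 4 := by positivity
        have h6 := mul_le_mul_of_nonneg_left h3 h5
        nlinarith
      refine lt_of_le_of_lt h4 ?_
      have h5 : X ^ (1 / 2 : ℝ) = Q ^ 500 := by
        rw [hQ, ← Real.rpow_natCast, ← Real.rpow_mul hX0.le]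
        norm_num
      have h6 : Q ^ 500 = Q ^ 494 * Q ^ 6 := by ring
      have h7 : Q ≤ Q ^ 494 := le_self_pow₀ hQ1 (by norm_num)
      have h8 : 200 * Q ^ 6 ≤ Q ^ 494 * Q ^ 6 := mul_le_mul_of_nonneg_right (by linarith) (by positivity)
      have h9 : 0 < Q ^ 6 := by positivity
      rw [lt_div_iff₀ (by norm_num)]
      linarith)
  refine ⟨x, hx, fun k => ?_⟩
  obtain ⟨i, hi⟩ := hxk k
  exact ⟨emb PP i, emb_mem PP i, (colr_eq hres x i k).1 hi⟩

end Pool.Agent.K7.H61.FG
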