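import Pool.Agent.K7.H61.FG.Main

set_option autoImplicit false
set_option maxHeartbeats 4000000

/-! # Every sparse set has many composite translates in every interval (helper61) -/

namespace Pool.Agent.K7.H61.FG

open Finset Filter

open scoped Classical

theorem ev_fin (D : ℕ) (ε c : ℝ) (hε : 0 < ε) (hε1 : ε ≤ 1) : ∀ᶠ X : ℝ in atTop,
    1 ≤ X ∧ 1 ≤ Real.log X ∧ 0 ≤ Real.log (Real.log X) ∧
    Real.log (Real.log X) / 2 ≤ Real.log (Real.log (X ^ (ε / 2))) ∧
    (Real.log X) ^ D ≤ (Real.log (X ^ (ε / 2))) ^ (D + 1) ∧ 2 ≤ X ^ (ε / 2) ∧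
    X ^ (1 - ε) + c * (Real.log X * Real.log (Real.log X)) * (2 * X ^ (ε / 2000) + 1) ≤
      X / (2 * X ^ (ε / 2)) - 1 := by
  have t1 := Real.tendsto_log_atTop
  have t2 : Tendsto (fun y : ℝ => Real.log (Real.log y)) atTop atTop := t1.comp t1
  have h1 : ∀ᶠ X : ℝ in atTop, (|c| + 1) * 3 * (Real.log X) ^ 2 ≤ X ^ (ε / 8) := by
    have h := (isLittleO_log_rpow_rpow_atTop (2 : ℝ) (show (0 : ℝ) < ε / 8 by positivity)).def
      (show (0 : ℝ) < 1 / ((|c| + 1) * 3) by positivity)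
    filter_upwards [h, eventually_ge_atTop 1] with x hx hx1
    rw [Real.norm_eq_abs, Real.norm_eq_abs, Real.rpow_two, abs_of_nonneg (sq_nonneg _),
      abs_of_nonneg (Real.rpow_nonneg (by linarith) _), div_mul_eq_mul_div, one_mul,
      le_div_iff₀ (by positivity)] at hx
    linarith
  have h2 : ∀ᶠ X : ℝ in atTop, 4 ≤ X ^ (ε / 4) :=
    (tendsto_rpow_atTop (by positivity : (0 : ℝ) < ε / 4)).eventually_ge_atTop 4
  filter_upwards [eventually_ge_atTop 1, t1.eventually_ge_atTop 1, t2.eventually_ge_atTop 0,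
    t2.eventually_ge_atTop (2 * |Real.log (ε / 2)|), t1.eventually_ge_atTop ((2 / ε) ^ (D + 1)), h1, h2]
    with X g1 g2 g3 g4 g5 g6 g7
  set L := Real.log X with hL
  have hX0 : 0 < X := by linarith
  have hL0 : 0 < L := by linarith
  have hlogY : Real.log (X ^ (ε / 2)) = ε / 2 * L := Real.log_rpow hX0 _
  have hE : ∀ s : ℝ, 0 ≤ s → 1 ≤ X ^ s := fun s hs => Real.one_le_rpow g1 hs
  refine ⟨g1, g2, g3, ?_, ?_, ?_, ?_⟩
  · rw [hlogY, Real.log_mul (by positivity) hL0.ne']
    have := neg_abs_le (Real.log (ε / 2))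
    linarith
  · rw [hlogY, mul_pow]
    have h3 : (ε / 2) ^ (D + 1) * (2 / ε) ^ (D + 1) = 1 := by
      rw [← mul_pow]
      have : ε / 2 * (2 / ε) = 1 := by field_simp
      rw [this, one_pow]
    have h4 : 1 ≤ (ε / 2) ^ (D + 1) * L := by
      rw [← h3]
      exact mul_le_mul_of_nonneg_left g5 (by positivity)
    have h5 : 0 ≤ L ^ D := by positivity
    calc L ^ D = 1 * L ^ D := (one_mul _).symm
      _ ≤ (ε / 2) ^ (D + 1) * L * L ^ D := mul_le_mul_of_nonneg_right h4 h5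
      _ = (ε / 2) ^ (D + 1) * L ^ (D + 1) := by ring
  · have h3 : X ^ (ε / 2) = X ^ (ε / 4) * X ^ (ε / 4) := by
      rw [← Real.rpow_add hX0]; congr 1; ring
    rw [h3]
    nlinarith
  · set E := X ^ (ε / 4) with hEd
    have e1 : X ^ (ε / 2) = E * E := by
      rw [hEd, ← Real.rpow_add hX0]; congr 1; ring
    have e2 : X / (2 * X ^ (ε / 2)) = X ^ (1 - ε) * (X ^ (ε / 2) / 2) := by
      have h3 : X = X ^ (1 - ε) * X ^ (ε / 2) * X ^ (ε / 2) := by
        rw [← Real.rpow_add hX0, ← Real.rpow_add hX0]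
        conv_lhs => rw [← Real.rpow_one X]
        congr 1
        ring
      have h4 : X ^ (ε / 2) ≠ 0 := by positivity
      have h5 : X ^ (1 - ε) * (X ^ (ε / 2) / 2) = X ^ (1 - ε) * X ^ (ε / 2) * X ^ (ε / 2) / (2 * X ^ (ε / 2)) := by
        field_simp
      rw [h5, ← h3]
    have e3 : 1 ≤ X ^ (1 - ε) := hE _ (by linarith)
    have e4 : X ^ (ε / 2000) ≤ X ^ (ε / 8) := Real.rpow_le_rpow_of_exponent_le g1 (by linarith)
    have e5 : 1 ≤ X ^ (ε / 2000) := hE _ (by positivity)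
    have e6 : c * (L * Real.log L) * (2 * X ^ (ε / 2000) + 1) ≤ E := by
      have h3 : Real.log L ≤ L := (Real.log_le_sub_one_of_pos hL0).trans (by linarith)
      have h4 : c * (L * Real.log L) ≤ (|c| + 1) * L ^ 2 := by
        calc c * (L * Real.log L) ≤ (|c| + 1) * (L * Real.log L) :=
              mul_le_mul_of_nonneg_right (by linarith [le_abs_self c]) (by positivity)
          _ ≤ (|c| + 1) * (L * L) := by
              apply mul_le_mul_of_nonneg_left _ (by positivity)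
              exact mul_le_mul_of_nonneg_left h3 hL0.le
          _ = (|c| + 1) * L ^ 2 := by ring
      have h5 : 2 * X ^ (ε / 2000) + 1 ≤ 3 * X ^ (ε / 8) := by linarith
      calc c * (L * Real.log L) * (2 * X ^ (ε / 2000) + 1) ≤ (|c| + 1) * L ^ 2 * (3 * X ^ (ε / 8)) := by
            apply mul_le_mul h4 h5 (by positivity) (by positivity)
        _ = ((|c| + 1) * 3 * L ^ 2) * X ^ (ε / 8) := by ring
        _ ≤ X ^ (ε / 8) * X ^ (ε / 8) := mul_le_mul_of_nonneg_right g6 (by positivity)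
        _ = E := by
            rw [hEd, ← Real.rpow_add hX0]
            congr 1
            ring
    rw [e2, e1]
    have e7 : E + 2 ≤ E * E / 2 := by nlinarith
    have e8 : X ^ (1 - ε) * (E + 2) ≤ X ^ (1 - ε) * (E * E / 2) := mul_le_mul_of_nonneg_left e7 (by linarith)
    have e9 : 0 ≤ E := by linarith
    have e10 : 1 * (E + 1) ≤ X ^ (1 - ε) * (E + 1) := mul_le_mul_of_nonneg_right e3 (by linarith)
    nlinarith

/-- many composite translates in every interval -/
theorem many (D : ℕ) (ε : ℝ) (hε : 0 < ε) (hε1 : ε ≤ 1) : ∃ c : ℝ, 0 < c ∧ ∀ᶠ X : ℝ in atTop,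
    ∀ (M : ℤ) (B : Finset ℤ), (B.card : ℝ) ≤ c * (Real.log X * Real.log (Real.log X)) →
    (∀ k ∈ B, ∀ l ∈ B, k ≠ l → (((k - l).natAbs.primeFactors.filter (fun p : ℕ => (p : ℝ) ≤ X)).card : ℝ) ≤
      (Real.log X) ^ D) →
    ∃ S : Finset ℤ, X ^ (1 - ε) ≤ (S.card : ℝ) ∧ ∀ n ∈ S, M < n ∧ (n : ℝ) ≤ M + X ∧
      ∀ b ∈ B, ∃ p : ℕ, p.Prime ∧ (p : ℝ) ≤ X ^ ε ∧ (p : ℤ) ∣ n + b ∧ (p : ℤ) < |n + b| := by
  obtain ⟨c₁, hc₁, h1⟩ := one (D + 1)
  refine ⟨c₁ * ε / 4, by positivity, ?_⟩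
  have hY : Tendsto (fun X : ℝ => X ^ (ε / 2)) atTop atTop := tendsto_rpow_atTop (by positivity)
  filter_upwards [hY.eventually h1, ev_fin D ε (c₁ * ε / 4) hε hε1] with X hX hev
  obtain ⟨g1, g2, g3, g4, g5, g6, g7⟩ := hev
  intro M B hB hdiff
  have hX0 : 0 < X := by linarith
  set Y := X ^ (ε / 2) with hYd
  have hlogY : Real.log Y = ε / 2 * Real.log X := Real.log_rpow hX0 _
  have hYX : Y ≤ X := by
    calc Y = X ^ (ε / 2) := rfl
      _ ≤ X ^ (1 : ℝ) := Real.rpow_le_rpow_of_exponent_le g1 (by linarith)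
      _ = X := Real.rpow_one X
  have hYp : Y ^ (1 / 1000 : ℝ) = X ^ (ε / 2000) := by
    rw [hYd, ← Real.rpow_mul hX0.le]
    congr 1
    ring
  -- the blocks
  obtain ⟨m, hm⟩ : ∃ m : ℕ, m = ⌈Y⌉₊ := ⟨_, rfl⟩
  have hmY : Y ≤ m := by rw [hm]; exact Nat.le_ceil Y
  have hm2 : (m : ℝ) ≤ 2 * Y := by
    have := (Nat.ceil_lt_add_one (show 0 ≤ Y by linarith)).le
    rw [hm]
    linarith
  have hm0 : (0 : ℝ) < m := by linarith
  obtain ⟨T, hT⟩ : ∃ T : ℕ, T = ⌊X / m⌋₊ := ⟨_, rfl⟩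
  have hT1 : (T : ℝ) ≤ X / m := by rw [hT]; exact Nat.floor_le (by positivity)
  have hT2 : X / m < T + 1 := by rw [hT]; exact Nat.lt_floor_add_one _
  have hTm : (T : ℝ) * m ≤ X := by
    rw [le_div_iff₀ hm0] at hT1
    exact hT1
  have hone : ∀ i : ℕ, ∃ n : ℤ, M + i * m < n ∧ n ≤ M + (i + 1) * m ∧
      ∀ b ∈ B, ∃ p : ℕ, p.Prime ∧ (p : ℝ) ≤ X ^ (ε / 2000) ∧ (p : ℤ) ∣ n + b := by
    intro i
    obtain ⟨n, hn1, hn2, hn3⟩ := hX (M + i * m) B (by
      refine hB.trans ?_
      rw [hlogY] at g4 ⊢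
      calc c₁ * ε / 4 * (Real.log X * Real.log (Real.log X)) =
            c₁ * (ε / 2 * Real.log X * (Real.log (Real.log X) / 2)) := by ring
        _ ≤ c₁ * (ε / 2 * Real.log X * Real.log (ε / 2 * Real.log X)) := by
            apply mul_le_mul_of_nonneg_left _ hc₁.le
            exact mul_le_mul_of_nonneg_left g4 (by positivity))
      (by
        intro k hk l hl hkl
        refine le_trans ?_ ((hdiff k hk l hl hkl).trans g5)
        have h2 : (k - l).natAbs.primeFactors.filter (fun p : ℕ => (p : ℝ) ≤ Y) ⊆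
            (k - l).natAbs.primeFactors.filter (fun p : ℕ => (p : ℝ) ≤ X) := by
          intro p hp
          rw [mem_filter] at hp ⊢
          exact ⟨hp.1, hp.2.trans hYX⟩
        exact_mod_cast card_le_card h2)
    refine ⟨n, hn1, ?_, fun b hb => ?_⟩
    · have h2 : (n : ℝ) ≤ ((M + (i + 1) * m : ℤ) : ℝ) := by
        push_cast at hn2 ⊢
        linarith
      exact_mod_cast h2
    · obtain ⟨p, h2, h3, h4⟩ := hn3 b hb
      rw [hYp] at h3
      exact ⟨p, h2, h3, h4⟩
  choose f hf1 hf2 hf3 using hone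
  have hmono : ∀ i j : ℕ, i < j → f i < f j := by
    intro i j hij
    have h2 := hf2 i
    have h3 := hf1 j
    have h4 : ((i : ℤ) + 1) * m ≤ j * m := by
      apply mul_le_mul_of_nonneg_right _ (Int.natCast_nonneg m)
      exact_mod_cast hij
    linarith
  have hinj : Function.Injective f := by
    intro i j hij
    rcases lt_trichotomy i j with h | h | h
    · exact absurd hij (hmono i j h).ne
    · exact h
    · exact absurd hij (hmono j i h).ne'
  set R : ℕ := ⌊X ^ (ε / 2000)⌋₊ with hR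
  have hRle : (R : ℝ) ≤ X ^ (ε / 2000) := Nat.floor_le (by positivity)
  set bad : Finset ℤ := B.biUnion (fun b => Icc (-(R : ℤ) - b) (R - b)) with hbad
  have hbadc : (bad.card : ℝ) ≤ c₁ * ε / 4 * (Real.log X * Real.log (Real.log X)) *
      (2 * X ^ (ε / 2000) + 1) := by
    have h2 : (bad.card : ℝ) ≤ ∑ b ∈ B, ((Icc (-(R : ℤ) - b) (R - b)).card : ℝ) := by
      rw [hbad]
      exact_mod_cast card_biUnion_le
    have h3 : ∀ b ∈ B, ((Icc (-(R : ℤ) - b) (R - b)).card : ℝ) ≤ 2 * X ^ (ε / 2000) + 1 := by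
      intro b _
      rw [Int.card_Icc]
      have e4 : ((R : ℤ) - b + 1 - (-(R : ℤ) - b)).toNat = 2 * R + 1 := by omega
      rw [e4]
      push_cast
      linarith
    refine h2.trans ((sum_le_card_nsmul _ _ _ h3).trans ?_)
    rw [nsmul_eq_mul]
    exact mul_le_mul_of_nonneg_right hB (by positivity)
  refine ⟨((range T).image f) \ bad, ?_, ?_⟩
  · have h2 : ((range T).image f).card = T := by
      rw [card_image_of_injective _ hinj, card_range]
    have h3 : ((range T).image f).card ≤ (((range T).image f) \ bad).card + bad.card :=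
      card_le_card_sdiff_add_card
    rw [h2] at h3
    have h4 : (T : ℝ) ≤ ((((range T).image f) \ bad).card : ℝ) + bad.card := by exact_mod_cast h3
    have h5 : X / (2 * Y) ≤ X / m := div_le_div_of_nonneg_left hX0.le hm0 hm2
    linarith
  · intro n hn
    rw [Finset.mem_sdiff, Finset.mem_image] at hn
    obtain ⟨⟨i, hi, rfl⟩, hnb⟩ := hn
    rw [mem_range] at hi
    have him : ((i : ℤ) + 1) * m ≤ T * m := by
      apply mul_le_mul_of_nonneg_right _ (Int.natCast_nonneg m)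
      exact_mod_cast hi
    have hi0 : (0 : ℤ) ≤ i * m := by positivity
    refine ⟨?_, ?_, fun b hb => ?_⟩
    · have := hf1 i
      linarith
    · have h2 : f i ≤ M + T * m := by
        have := hf2 i
        linarith
      have h3 : ((f i : ℤ) : ℝ) ≤ ((M + T * m : ℤ) : ℝ) := by exact_mod_cast h2
      push_cast at h3
      linarith
    · obtain ⟨p, h2, h3, h4⟩ := hf3 i b hb
      refine ⟨p, h2, ?_, h4, ?_⟩
      · exact h3.trans (Real.rpow_le_rpow_of_exponent_le g1 (by linarith))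
      · by_contra hcon
        push Not at hcon
        apply hnb
        rw [hbad, mem_biUnion]
        refine ⟨b, hb, ?_⟩
        have h5 : p ≤ R := by rw [hR]; exact Nat.le_floor h3
        have h6 := abs_le.1 hcon
        rw [mem_Icc]
        constructor <;> omega

end Pool.Agent.K7.H61.FG
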