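import Pool.Agent.K7.H61.FG.Cov
import Pool.Agent.K7.H61.FT.Cls
import Pool.Agent.K7.H61.FF.Fin

set_option autoImplicit false
set_option maxHeartbeats 4000000

/-! # Every sparse set has composite translates in every interval (helper61) -/

namespace Pool.Agent.K7.H61.FG

open Finset Filter
open Pool.Agent.H318R2.Cr (Pz V)

open scoped Classical

/-- the numerical facts -/
theorem ev_main (D : ℕ) (c₂ c : ℝ) (hc : 0 < c) : ∀ᶠ X : ℝ in atTop,
    1000 ≤ Real.log X ∧ 1000 ≤ X ∧ 4 ≤ Real.log (Real.log X) ∧ 2 ≤ ⌊Real.log X / 1000⌋₊ ∧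
    Real.log (Real.log X) / 2 ≤ Real.log (⌊Real.log X / 1000⌋₊ : ℝ) ∧
    ((4 : ℝ) ^ ⌊Real.log X / 1000⌋₊ ≤ X ^ (1 / 500 : ℝ)) ∧
    2 * X ^ (1 / 2 : ℝ) ≤ X / X ^ (1 / 500 : ℝ) ∧ (⌊Real.log X / 1000⌋₊ : ℝ) ≤ X ^ (1 / 1000 : ℝ) := by
  have t1 := Real.tendsto_log_atTop
  have t2 : Tendsto (fun y : ℝ => Real.log (Real.log y)) atTop atTop := t1.comp t1
  filter_upwards [t1.eventually_ge_atTop 10000000, t2.eventually_ge_atTop 10, eventually_ge_atTop 1000]
    with X hL hLL hX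
  set L := Real.log X with hLd
  set N : ℕ := ⌊L / 1000⌋₊ with hN
  have hX0 : 0 < X := by linarith
  have hN0 : (N : ℝ) ≤ L / 1000 := Nat.floor_le (by positivity)
  have hN1 : L / 1000 < N + 1 := Nat.lt_floor_add_one _
  have hN2 : 2 ≤ N := by
    have h2 : (2 : ℝ) < N + 1 := by linarith
    have h3 : 2 < N + 1 := by exact_mod_cast h2
    omega
  have hNr : (2 : ℝ) ≤ N := by exact_mod_cast hN2
  refine ⟨by linarith, hX, by linarith, hN2, ?_, ?_, ?_, ?_⟩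
  · have h1 : L ≤ (N : ℝ) ^ 2 := by
      have h2 : L / 2000 ≤ N := by linarith
      have h3 : (L / 2000) ^ 2 ≤ (N : ℝ) ^ 2 := pow_le_pow_left₀ (by positivity) h2 2
      refine le_trans ?_ h3
      rw [div_pow, le_div_iff₀ (by norm_num)]
      nlinarith
    have h2 := Real.log_le_log (by linarith) h1
    rw [Real.log_pow] at h2
    push_cast at h2
    linarith
  · have h2 : Real.log 4 ≤ 2 := by
      have h4 : Real.log 4 = 2 * Real.log 2 := by
        rw [show (4 : ℝ) = 2 ^ (2 : ℕ) by norm_num, Real.log_pow]; norm_num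
      have := Real.log_two_lt_d9
      linarith
    rw [← Real.rpow_natCast, Real.rpow_def_of_pos (by norm_num : (0 : ℝ) < 4), Real.rpow_def_of_pos hX0, ← hLd]
    apply Real.exp_le_exp.2
    have h3 : Real.log 4 * N ≤ 2 * (L / 1000) :=
      mul_le_mul h2 hN0 (Nat.cast_nonneg _) (by norm_num)
    linarith
  · have h1 : X / X ^ (1 / 500 : ℝ) = X ^ (499 / 500 : ℝ) := by
      rw [div_eq_iff (by positivity), ← Real.rpow_add hX0]
      norm_num
    have h2 : X ^ (499 / 500 : ℝ) = X ^ (1 / 2 : ℝ) * X ^ (249 / 500 : ℝ) := by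
      rw [← Real.rpow_add hX0]; norm_num
    have h3 : 2 ≤ X ^ (249 / 500 : ℝ) := by
      rw [Real.rpow_def_of_pos hX0, ← hLd]
      have := Real.add_one_le_exp (L * (249 / 500))
      linarith
    rw [h1, h2, mul_comm]
    exact mul_le_mul_of_nonneg_left h3 (by positivity)
  · rw [Real.rpow_def_of_pos hX0, ← hLd]
    have := Real.add_one_le_exp (L * (1 / 1000))
    linarith

/-- one integer -/
theorem one (D : ℕ) : ∃ c : ℝ, 0 < c ∧ ∀ᶠ X : ℝ in atTop, ∀ (M : ℤ) (B : Finset ℤ),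
    (B.card : ℝ) ≤ c * (Real.log X * Real.log (Real.log X)) →
    (∀ k ∈ B, ∀ l ∈ B, k ≠ l → (((k - l).natAbs.primeFactors.filter (fun p : ℕ => (p : ℝ) ≤ X)).card : ℝ) ≤
      (Real.log X) ^ D) →
    ∃ n : ℤ, M < n ∧ (n : ℝ) ≤ M + X ∧ ∀ b ∈ B, ∃ p : ℕ, p.Prime ∧ (p : ℝ) ≤ X ^ (1 / 1000 : ℝ) ∧
      (p : ℤ) ∣ n + b := by
  obtain ⟨c₀, hc₀, hcov⟩ := coverE (D + 6) (by omega)
  obtain ⟨c₁, c₂, hc₁, hc₁₂, hV⟩ := Pool.Agent.H318R2.Cr.cz_bounds
  have hc₂ : 0 < c₂ := hc₁.trans_le hc₁₂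
  obtain ⟨c₃, hc₃⟩ : ∃ c₃ : ℝ, c₃ = min c₀ 1 := ⟨_, rfl⟩
  have hc₃0 : 0 < c₃ := by rw [hc₃]; exact lt_min hc₀ one_pos
  refine ⟨c₃ / (2 * c₂), by positivity, ?_⟩
  filter_upwards [hcov, ev_main D c₂ c₀ hc₀] with X hcovX hev
  obtain ⟨hL, hX1, hLL, hN2, hlogN, h4N, hXW, hNX⟩ := hev
  intro M B hB hdiff
  set L := Real.log X with hLd
  set N : ℕ := ⌊L / 1000⌋₊ with hN
  have hX0 : 0 < X := by linarith
  have hL0 : 0 < L := by linarith
  have hlogN0 : 0 < Real.log N := by linarith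
  have hprime : ∀ p ∈ Pz N, p.Prime := fun p hp => (Pool.Agent.H318R2.Cr.mem_Pz.1 hp).1
  -- the classes
  obtain ⟨ρ, -, hcard⟩ := Pool.Agent.K7.H61.FT.avg_classesT (K := 0) (fun j => j.elim0) 1 (fun _ => 0)
    (fun _ : ℤ => (1 : ℤ)) (fun k : ℤ => k) (Pz N) hprime (fun p _ j => j.elim0) B
  set U := B.filter (fun k => ∀ p ∈ Pz N, ¬ p ∣ 1 → ¬ (p : ℤ) ∣ 1 * (ρ p : ℤ) + k) with hU
  have hUc : (U.card : ℝ) ≤ c₃ * L := by
    refine hcard.trans ?_
    have h1 : ∀ k ∈ B, ∏ p ∈ Pz N, (if p ∣ 1 ∨ (p : ℤ) ∣ (1 : ℤ) ∨ (∃ j : Fin 0, (p : ℤ) ∣ (1 : ℤ) *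
        ((fun j : Fin 0 => (j.elim0 : ℕ)) j : ℕ) - k) then (1 : ℝ) else 1 - 1 / (p : ℝ)) ≤ c₂ / Real.log N := by
      intro k _
      have h2 : ∏ p ∈ Pz N, (if p ∣ 1 ∨ (p : ℤ) ∣ (1 : ℤ) ∨ (∃ j : Fin 0, (p : ℤ) ∣ (1 : ℤ) *
        ((fun j : Fin 0 => (j.elim0 : ℕ)) j : ℕ) - k) then (1 : ℝ) else 1 - 1 / (p : ℝ)) = V N := by
        unfold V
        apply prod_congr rfl
        intro p hp
        rw [if_neg]
        push Not
        refine ⟨fun h => (hprime p hp).one_lt.ne' (Nat.dvd_one.1 h), fun h => ?_, fun j => j.elim0⟩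
        have h3 : p ∣ 1 := by exact_mod_cast h
        exact (hprime p hp).one_lt.ne' (Nat.dvd_one.1 h3)
      rw [h2, le_div_iff₀ hlogN0]
      exact (hV N hN2).2
    refine (sum_le_card_nsmul _ _ _ h1).trans ?_
    rw [nsmul_eq_mul]
    calc (B.card : ℝ) * (c₂ / Real.log N) ≤ c₃ / (2 * c₂) * (L * Real.log L) * (c₂ / (Real.log L / 2)) := by
          apply mul_le_mul hB _ (by positivity) (by positivity)
          apply div_le_div_of_nonneg_left hc₂.le (by linarith) hlogN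
      _ = c₃ * L := by
          have : Real.log L ≠ 0 := by linarith
          field_simp
  have hUB : U ⊆ B := filter_subset _ _
  have hUL : (U.card : ℝ) ≤ L := by
    have h1 : c₃ * L ≤ 1 * L := mul_le_mul_of_nonneg_right (by rw [hc₃]; exact min_le_right _ _) hL0.le
    linarith
  -- the excluded primes
  set Bx : Finset ℕ := U.biUnion (fun k => (U.erase k).biUnion (fun l =>
    (k - l).natAbs.primeFactors.filter (fun p : ℕ => (p : ℝ) ≤ X))) with hBx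
  have hBxc : 2 * (Bx.card : ℝ) ≤ L ^ (D + 6) := by
    have h1 : (Bx.card : ℝ) ≤ ∑ k ∈ U, ∑ l ∈ U.erase k,
        (((k - l).natAbs.primeFactors.filter (fun p : ℕ => (p : ℝ) ≤ X)).card : ℝ) := by
      have h2 : Bx.card ≤ ∑ k ∈ U, ∑ l ∈ U.erase k,
          ((k - l).natAbs.primeFactors.filter (fun p : ℕ => (p : ℝ) ≤ X)).card := by
        rw [hBx]
        exact card_biUnion_le.trans (sum_le_sum fun k _ => card_biUnion_le)
      exact_mod_cast h2
    have h2 : ∑ k ∈ U, ∑ l ∈ U.erase k,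
        (((k - l).natAbs.primeFactors.filter (fun p : ℕ => (p : ℝ) ≤ X)).card : ℝ) ≤ L * (L * L ^ D) := by
      refine (sum_le_card_nsmul _ _ (L * L ^ D) (fun k hk => ?_)).trans ?_
      · refine (sum_le_card_nsmul _ _ (L ^ D) (fun l hl => ?_)).trans ?_
        · rw [mem_erase] at hl
          exact hdiff k (hUB hk) l (hUB hl.2) (Ne.symm hl.1)
        · rw [nsmul_eq_mul]
          apply mul_le_mul_of_nonneg_right _ (by positivity)
          refine le_trans ?_ hUL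
          exact_mod_cast card_le_card (erase_subset _ _)
      · rw [nsmul_eq_mul]
        exact mul_le_mul_of_nonneg_right hUL (by positivity)
    have h3 : L ^ (D + 6) = L * (L * L ^ D) * L ^ 4 := by ring
    have h4 : (2 : ℝ) ≤ L ^ 4 := by
      have : L ≤ L ^ 4 := le_self_pow₀ (by linarith) (by norm_num)
      linarith
    have h5 : 0 ≤ L * (L * L ^ D) := by positivity
    rw [h3]
    nlinarith
  obtain ⟨PP, hPP, hres⟩ := hcovX Bx hBxc ↥U (by
    rw [Fintype.card_coe]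
    exact hUc.trans (mul_le_mul_of_nonneg_right (by rw [hc₃]; exact min_le_left _ _) hL0.le))
  -- the modulus
  set W : ℕ := ∏ p ∈ Pz N, p with hW
  have hW0 : 0 < W := prod_pos fun p hp => (hprime p hp).pos
  have hWle : (W : ℝ) ≤ X ^ (1 / 500 : ℝ) := by
    have h1 : W ≤ primorial N := by
      rw [hW, primorial]
      apply prod_le_prod_of_subset_of_one_le'
      · intro p hp
        have := Pool.Agent.H318R2.Cr.mem_Pz.1 hp
        rw [mem_filter, mem_range]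
        exact ⟨by omega, this.1⟩
      · intro p hp _
        exact (mem_filter.1 hp).2.one_le
    have h2 : (W : ℝ) ≤ (4 : ℝ) ^ N := by exact_mod_cast h1.trans (primorial_le_four_pow _)
    exact h2.trans h4N
  obtain ⟨r, hr⟩ := Nat.chineseRemainderOfFinset ρ (fun p => p) (Pz N)
    (fun p hp => (hprime p (by simpa using hp)).ne_zero)
    (fun p hp q hq hpq => (Nat.coprime_primes (hprime p (by simpa using hp)) (hprime q (by simpa using hq))).2 hpq)
  have hLA : L ≤ L ^ (D + 6) := le_self_pow₀ (by linarith) (by omega)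
  have hNL : (N : ℝ) ≤ L / 1000 := Nat.floor_le (by positivity)
  have hPPW : ∀ p ∈ PP, ¬ p ∣ W := by
    intro p hp hd
    obtain ⟨h1, h2, -, -⟩ := hPP p hp
    rw [hW, Prime.dvd_finsetProd_iff h1.prime] at hd
    obtain ⟨q, hq, hpq⟩ := hd
    have h3 : p = q := (Nat.prime_dvd_prime_iff_eq h1 (hprime q hq)).1 hpq
    have h4 := (Pool.Agent.H318R2.Cr.mem_Pz.1 hq).2
    have h5 : (p : ℝ) ≤ N := by rw [h3]; exact_mod_cast h4
    linarith
  have hex : ∀ (p : ℕ) (k : ↥U), ∃ σ : ℤ, p ∈ PP → (p : ℤ) ∣ (W : ℤ) * σ + (r + (k : ℤ)) := by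
    intro p k
    by_cases hp : p ∈ PP
    · obtain ⟨σ, hσ⟩ := Pool.Agent.TH101.RG.solve p (hPP p hp).1 (W : ℤ) (r + (k : ℤ))
        (fun h => hPPW p hp (by exact_mod_cast h))
      exact ⟨σ, fun _ => hσ⟩
    · exact ⟨0, fun h => absurd h hp⟩
  choose res hresd using hex
  have hXp : X ^ (1 / 1000 : ℝ) ≤ X := by
    calc X ^ (1 / 1000 : ℝ) ≤ X ^ (1 : ℝ) := Real.rpow_le_rpow_of_exponent_le (by linarith) (by norm_num)
      _ = X := Real.rpow_one X
  have hWR : (0 : ℝ) < W := by exact_mod_cast hW0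
  obtain ⟨A', hA⟩ : ∃ A' : ℤ, A' = ⌊((M : ℝ) - r) / W⌋ := ⟨_, rfl⟩
  obtain ⟨B', hB'⟩ : ∃ B' : ℤ, B' = ⌊((M : ℝ) + X - r) / W⌋ := ⟨_, rfl⟩
  have hA1 : (A' : ℝ) ≤ ((M : ℝ) - r) / W := by rw [hA]; exact Int.floor_le _
  have hA2 : ((M : ℝ) - r) / W < (A' : ℝ) + 1 := by rw [hA]; exact Int.lt_floor_add_one _
  have hB1 : (B' : ℝ) ≤ ((M : ℝ) + X - r) / W := by rw [hB']; exact Int.floor_le _
  have hB2 : ((M : ℝ) + X - r) / W < (B' : ℝ) + 1 := by rw [hB']; exact Int.lt_floor_add_one _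
  have hBA : X ^ (1 / 2 : ℝ) ≤ (B' : ℝ) - A' := by
    have e1 : ((M : ℝ) + X - r) / W = ((M : ℝ) - r) / W + X / W := by ring
    have e2 : X / X ^ (1 / 500 : ℝ) ≤ X / W := div_le_div_of_nonneg_left hX0.le hWR hWle
    have e3 : (1 : ℝ) ≤ X ^ (1 / 2 : ℝ) := Real.one_le_rpow (by linarith) (by norm_num)
    rw [e1] at hB2
    linarith
  obtain ⟨x, hx, hxk⟩ := hres res
    (by
      intro p hp k l hkl hd
      have h1 := hresd p k hp
      have h2 := hresd p l hp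
      have h3 : (p : ℤ) ∣ (k : ℤ) - (l : ℤ) := by
        have h4 : (k : ℤ) - (l : ℤ) = ((W : ℤ) * res p k + (r + (k : ℤ))) -
            ((W : ℤ) * res p l + (r + (l : ℤ))) - W * (res p k - res p l) := by ring
        rw [h4]
        exact dvd_sub (dvd_sub h1 h2) (hd.mul_left _)
      have hkl' : (k : ℤ) ≠ l := fun h => hkl (Subtype.ext h)
      apply (hPP p hp).2.2.2
      rw [hBx, mem_biUnion]
      refine ⟨k, k.2, ?_⟩
      rw [mem_biUnion]
      refine ⟨l, mem_erase.2 ⟨hkl'.symm, l.2⟩, ?_⟩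
      rw [mem_filter, Nat.mem_primeFactors]
      exact ⟨⟨(hPP p hp).1, Int.natCast_dvd.1 h3, Int.natAbs_ne_zero.2 (sub_ne_zero.2 hkl')⟩,
        (hPP p hp).2.2.1.trans hXp⟩) A' B' hBA
  rw [mem_Ioc] at hx
  have hx1 : ((M : ℝ) - r) / W < x := by
    have : (A' : ℝ) + 1 ≤ x := by exact_mod_cast hx.1
    linarith
  have hx2 : (x : ℝ) ≤ ((M : ℝ) + X - r) / W := by
    have : (x : ℝ) ≤ B' := by exact_mod_cast hx.2
    linarith
  rw [div_lt_iff₀ hWR] at hx1
  rw [le_div_iff₀ hWR] at hx2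
  refine ⟨r + W * x, ?_, ?_, fun b hb => ?_⟩
  · have h1 : (M : ℝ) < ((r + W * x : ℤ) : ℝ) := by
      push_cast
      linarith
    exact_mod_cast h1
  · push_cast
    linarith
  · by_cases hbU : b ∈ U
    · obtain ⟨p, hp, hpx⟩ := hxk ⟨b, hbU⟩
      refine ⟨p, (hPP p hp).1, (hPP p hp).2.2.1, ?_⟩
      have h1 := hresd p ⟨b, hbU⟩ hp
      have h2 : (r : ℤ) + W * x + b = W * (x - res p ⟨b, hbU⟩) + (W * res p ⟨b, hbU⟩ + (r + b)) := by ring
      rw [h2]
      exact dvd_add (hpx.mul_left _) h1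
    · rw [hU, mem_filter, not_and] at hbU
      have h1 := hbU hb
      push Not at h1
      obtain ⟨p, hp, -, hpd⟩ := h1
      have hpp := hprime p hp
      have hpN := (Pool.Agent.H318R2.Cr.mem_Pz.1 hp).2
      refine ⟨p, hpp, ?_, ?_⟩
      · refine le_trans ?_ hNX
        exact_mod_cast hpN
      · have h2 : (p : ℤ) ∣ (r : ℤ) - ρ p := Nat.modEq_iff_dvd.1 ((hr p hp).symm)
        have h3 : (p : ℤ) ∣ (W : ℤ) := by
          exact_mod_cast dvd_prod_of_mem (fun p => p) hp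
        have h4 : (r : ℤ) + W * x + b = ((r : ℤ) - ρ p) + W * x + (1 * (ρ p : ℤ) + b) := by ring
        rw [h4]
        exact dvd_add (dvd_add h2 (h3.mul_right _)) hpd

end Pool.Agent.K7.H61.FG
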